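import Pool.Agent.Y152.AS.Defs

/-!
# Equivalent forms of Bloch's conjecture for correspondences between surfaces: definitions
-/

open CategoryTheory AlgebraicGeometry

universe u v w

namespace Pool.Agent.Y152.EQ

open Pool.Agent.H914 Pool.Agent.H914.VarClass Pool.Agent.H914.VarClass.Obj Pool.Agent.W492.BB
  Pool.Agent.W550.Corr Pool.Agent.TH133 Pool.Agent.Y152.AS

variable {k : Type u} [Field k] {𝒱 : VarClass k}

section

variable (C : TheoryData.{u, v, 0} 𝒱 ℚ) (U : 𝒱.Obj → Prop)

/-- The correspondence `Z` from `S` to `T` acts as zero on `F^2 CH_0(S)_ℚ`. -/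
def Kills {S T : 𝒱.Obj} (Z : C.A (S.prod T)) : Prop :=
  ∀ α : C.A S, InAlbKer C α → C.act Z α = 0

/-- `ᵗZ = -Z` -/
def IsAntisymmetric (S : 𝒱.Obj) (Z : C.A (S.prod S)) : Prop := tp C Z = -Z

/-- `ᵗZ = Z` -/
def IsSymmetric (S : 𝒱.Obj) (Z : C.A (S.prod S)) : Prop := tp C Z = Z

/-- `Z ∘ Z` is degenerate -/
def HasDegenerateSquare (S : 𝒱.Obj) (Z : C.A (S.prod S)) : Prop := IsDegenerate C (C.comp Z Z)

/-- The morphism `f : R ⟶ S` of surfaces is generically finite: `f_* 1 = N` with `N ≠ 0`. -/
def IsCover {R S : 𝒱.Obj} (f : R ⟶ S) : Prop := ∃ N : ℚ, N ≠ 0 ∧ C.down f 1 = N • 1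

/-- Any two surfaces `S`, `T` have a common cover in the class `U`: a surface `R` in `U` with
generically finite morphisms `r : R ⟶ S`, `r' : R ⟶ T` such that the correspondence `r'_* r^*` (the
class in `CH^2(S × T)_ℚ` of the image of `R`) is degenerate. For example `R` is the intersection of
two general members of the linear system of a very ample line bundle `L ⊠ L'` on `S × T`. -/
def HasCommonCovers : Prop :=
  ∀ S T : 𝒱.Obj, S.dim = 2 → T.dim = 2 → ∃ (R : 𝒱.Obj) (r : R ⟶ S) (r' : R ⟶ T),
    R.dim = 2 ∧ U R ∧ IsCover C r ∧ IsCover C r' ∧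
      IsDegenerate C (C.comp (tp C (C.graph r)) (C.graph r'))

/-- The linear combination of the graphs of the morphisms `f i : R ⟶ T` with coefficients `c i`. -/
noncomputable def mapSum {R T : 𝒱.Obj} {n : ℕ} (f : Fin n → (R ⟶ T)) (c : Fin n → ℚ) :
    C.A (R.prod T) := ∑ i, c i • C.graph (f i)

/-- Every correspondence `Z` between surfaces `S`, `T` becomes a linear combination of morphisms, up
to a degenerate correspondence, after composition with a suitable generically finite morphism
`ρ : R ⟶ S`, `R` in `U`. (Let `R` be a surface whose function field is normal over that of `S` and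
contains the function fields of the components of `Z` which dominate `S`, blown up so that the
rational maps `R ⇢ T` become morphisms.) -/
def HasMapPresentations : Prop :=
  ∀ (S T : 𝒱.Obj) (Z : C.A (S.prod T)), S.dim = 2 → T.dim = 2 → C.Deg 2 Z →
    ∃ (R : 𝒱.Obj) (ρ : R ⟶ S) (n : ℕ) (f : Fin n → (R ⟶ T)) (c : Fin n → ℚ),
      R.dim = 2 ∧ U R ∧ IsCover C ρ ∧ IsDegenerate C (C.comp (C.graph ρ) Z - mapSum C f c)

end

variable {C : TheoryData.{u, v, 0} 𝒱 ℚ} {K : Type w} [Field K]
  (H : WeilTheoryData.{u, v, w} C K) (U : 𝒱.Obj → Prop)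

/-- Bloch's conjecture (Q1) for all correspondences between surfaces. -/
def BlochConj : Prop :=
  ∀ (S T : 𝒱.Obj) (Z : C.A (S.prod T)), S.dim = 2 → T.dim = 2 → C.Deg 2 Z →
    IsHomDegenerate H Z → Kills C Z

/-- `Q` holds for all self-correspondences of surfaces in `U` which are homologically equivalent to
degenerate ones. -/
def ForSelf (Q : ∀ S : 𝒱.Obj, C.A (S.prod S) → Prop) : Prop :=
  ∀ (S : 𝒱.Obj) (Z : C.A (S.prod S)), S.dim = 2 → U S → C.Deg 2 Z → IsHomDegenerate H Z → Q S Z

/-- Bloch's conjecture for the self-correspondences of surfaces in `U` with the property `P`. -/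
def BlochSelf (P : ∀ S : 𝒱.Obj, C.A (S.prod S) → Prop) : Prop :=
  ForSelf H U fun S Z => P S Z → Kills C Z

/-- The self-correspondences of surfaces in `U` which are homologically equivalent to degenerate
ones act on `F^2 CH_0` as their transposes. -/
def ActAsTransposes : Prop :=
  ForSelf H U fun S Z => ∀ α : C.A S, InAlbKer C α → C.act Z α = C.act (tp C Z) α

/-- The self-correspondences of surfaces in `U` which are homologically equivalent to degenerate
ones commute on `F^2 CH_0` with all self-correspondences. -/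
def ActCentrally : Prop :=
  ForSelf H U fun S Z => ∀ Y : C.A (S.prod S), C.Deg 2 Y → ∀ α : C.A S, InAlbKer C α →
    C.act Z (C.act Y α) = C.act Y (C.act Z α)

/-- The self-correspondences `Δ_S + Z` of surfaces `S` in `U` which are invertible modulo degenerate
ones, with `Z` homologically equivalent to a degenerate one, act as the identity on `F^2 CH_0`: the
automorphisms of the transcendental motive of `S` act faithfully on cohomology. -/
def AutomorphismsFaithful : Prop :=
  ForSelf H U fun S Z => ∀ Y : C.A (S.prod S), C.Deg 2 Y →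
    IsDegenerate C (C.comp (dg C S + Z) Y - dg C S) →
      IsDegenerate C (C.comp Y (dg C S + Z) - dg C S) → Kills C Z

/-- Bloch's conjecture for linear combinations of morphisms `R ⟶ T` of surfaces, `R` in `U`. -/
def BlochMaps : Prop :=
  ∀ (R T : 𝒱.Obj) (n : ℕ) (f : Fin n → (R ⟶ T)) (c : Fin n → ℚ), R.dim = 2 → T.dim = 2 → U R →
    IsHomDegenerate H (mapSum C f c) → Kills C (mapSum C f c)

end Pool.Agent.Y152.EQ
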