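import Pool.Agent.Y152.AS.Ops
import Pool.Agent.Y152.EQ.Defs

/-!
# Equivalent forms of Bloch's conjecture for correspondences between surfaces
-/

open CategoryTheory AlgebraicGeometry

universe u v w

namespace Pool.Agent.Y152.EQ

open Pool.Agent.H914 Pool.Agent.H914.VarClass Pool.Agent.H914.VarClass.Obj Pool.Agent.W492.BB
  Pool.Agent.W550.Corr Pool.Agent.TH133 Pool.Agent.Y152.AS

set_option linter.unusedSectionVars false

variable {k : Type u} [Field k] {𝒱 : VarClass k} {C : TheoryData.{u, v, 0} 𝒱 ℚ}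
  [hC : IsChowProj C] {K : Type w} [Field K] {H : WeilTheoryData.{u, v, w} C K}
  [hH : IsWeilProj H] {S T R : 𝒱.Obj}

lemma isDegenerate_smul {W : C.A (S.prod T)} (h : IsDegenerate C W) (c : ℚ) :
    IsDegenerate C (c • W) := by
  induction h with
  | zero => rw [smul_zero]; exact IsDegenerate.zero
  | left Y Γ Δ hY h1 h2 =>
    rw [← AS.comp_smul_left]
    exact IsDegenerate.left Y _ Δ hY (Submodule.smul_mem _ c h1) h2
  | right Y Γ Δ hY h1 h2 =>
    rw [← AS.comp_smul_left]
    exact IsDegenerate.right Y _ Δ hY (Submodule.smul_mem _ c h1) h2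
  | add Z W _ _ h1 h2 => rw [smul_add]; exact IsDegenerate.add _ _ h1 h2

lemma isDegenerate_iff {W : C.A (S.prod T)} : IsDegenerate C W ↔ W ∈ degenerate C S T := by
  refine ⟨IsDegenerate.mem, fun h => ?_⟩
  induction h using Submodule.span_induction with
  | mem x hx =>
    obtain ⟨Y, Γ, Δ, hY, h | h, rfl⟩ := hx
    · exact IsDegenerate.left Y Γ Δ hY h.1 h.2
    · exact IsDegenerate.right Y Γ Δ hY h.1 h.2
  | zero => exact IsDegenerate.zero
  | add x y _ _ hx hy => exact IsDegenerate.add _ _ hx hy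
  | smul c x _ hx => exact isDegenerate_smul hx c

lemma isHomDegenerate_iff {Z : C.A (S.prod T)} : IsHomDegenerate H Z ↔ HomDeg H Z :=
  ⟨fun ⟨W, h1, h2⟩ => ⟨W, isDegenerate_iff.1 h1, h2⟩,
    fun ⟨W, h1, h2⟩ => ⟨W, isDegenerate_iff.2 h1, h2⟩⟩

lemma graph_mem (f : R ⟶ T) : C.graph f ∈ C.gr (R.prod T) T.dim := by
  have h := C.push_mem (Obj.lift (𝟙 R) f) (C.one_mem R)
  have e1 : (0 : ℤ) + 1 * (((R.prod T).dim : ℤ) - (R.dim : ℤ)) = T.dim := by
    rw [dim_prod]; push_cast; ring
  rwa [e1] at h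

lemma graph_mem2 (hT : T.dim = 2) (f : R ⟶ T) : C.graph f ∈ C.gr (R.prod T) 2 :=
  deg_cast (by rw [hT]; norm_num) (graph_mem f)

lemma mapSum_mem (hT : T.dim = 2) {n : ℕ} (f : Fin n → (R ⟶ T)) (c : Fin n → ℚ) :
    mapSum C f c ∈ C.gr (R.prod T) 2 :=
  Submodule.sum_mem _ fun i _ => Submodule.smul_mem _ _ (graph_mem2 hT (f i))

lemma tp_graph (f : R ⟶ T) : tp C (C.graph f) = C.cograph f := by
  rw [tp, TheoryData.graph, TheoryData.cograph, pull_iso C (sw T R) (sw R T) sw_sw sw_sw,
    ← C.push_comp]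
  congr 1
  rw [sw, comp_lift, lift_fst, lift_snd]

lemma act_tp_graph (f : R ⟶ T) (b : C.A T) : C.act (tp C (C.graph f)) b = C.pull f b := by
  rw [tp_graph, C.act_cograph]

/-- The projection formula for a generically finite morphism. -/
lemma cover_push_pull {f : R ⟶ S} {N : ℚ} (h : C.down f 1 = N • 1) (a : C.A S) :
    C.push f (C.pull f a) = N • a := by
  have h1 := C.proj_left f 1 a
  have h2 : C.push f 1 = N • 1 := h
  rw [mul_one, h2] at h1
  rw [h1, mul_smul_comm, mul_one]

/-- The act of the basic construction. -/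
lemma act_push (hR : R.dim = 2) (hS : S.dim = 2) (r : R ⟶ S) {β : C.A R} (hβ : β ∈ albKer C R) :
    C.push r β ∈ albKer C S := by
  have := act_albKer hR hS (graph_mem2 hS r) hβ
  rwa [C.act_graph] at this

lemma act_pull (hR : R.dim = 2) (hS : S.dim = 2) (r : R ⟶ S) {α : C.A S} (hα : α ∈ albKer C S) :
    C.pull r α ∈ albKer C R := by
  have := act_albKer hS hR (tp_mem C (graph_mem2 hS r)) hα
  rwa [act_tp_graph] at this

section cover

variable (hS : S.dim = 2) (hT : T.dim = 2) (hR : R.dim = 2) (r : R ⟶ S) (r' : R ⟶ T)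

/-- The correspondence `r'^* Z r_*` on the common cover. -/
noncomputable def big (Z : C.A (S.prod T)) : C.A (R.prod R) :=
  C.comp (C.graph r) (C.comp Z (tp C (C.graph r')))

variable {r r'} {Z : C.A (S.prod T)}

lemma act_big (β : C.A R) :
    C.act (big r r' Z) β = C.pull r' (C.act Z (C.push r β)) := by
  rw [big, C.act_comp, C.act_comp, C.act_graph, act_tp_graph]

lemma act_tp_big (β : C.A R) :
    C.act (tp C (big r r' Z)) β = C.pull r (C.act (tp C Z) (C.push r' β)) := by
  rw [big, tp_comp C (ch_comm C), tp_comp C (ch_comm C), tp_tp, C.act_comp, C.act_comp,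
    C.act_graph, act_tp_graph]

include hS hT hR

lemma big_mem (hZ : Z ∈ C.gr (S.prod T) 2) : big r r' Z ∈ C.gr (R.prod R) 2 :=
  comp_mem2 hS hR (graph_mem2 hS r) (comp_mem2 hT hS hZ (tp_mem C (graph_mem2 hT r')))

lemma big_homDeg (h : HomDeg H Z) : HomDeg H (big r r' Z) :=
  (h.comp_right hT (tp_mem C (graph_mem2 hT r'))).comp_left hR hS (graph_mem2 hS r)

/-- If `Z` is recovered from the action on the cover. -/
lemma recover {N N' : ℚ} (hN : N ≠ 0) (hN' : N' ≠ 0) (hr : C.down r 1 = N • 1)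
    (hr' : C.down r' 1 = N' • 1) (h : ∀ β ∈ albKer C R, C.act (big r r' Z) β = 0)
    {α : C.A S} (hα : α ∈ albKer C S) : C.act Z α = 0 := by
  have h1 := h _ (act_pull hR hS r hα)
  rw [act_big, cover_push_pull hr, act_map_smul, map_smul] at h1
  have h2 := congrArg (C.push r') ((smul_eq_zero.1 h1).resolve_left hN)
  rw [cover_push_pull hr', map_zero] at h2
  exact (smul_eq_zero.1 h2).resolve_left hN'

/-- `r'_* r^* = 0` on the Albanese kernel. -/
lemma cross (hd : IsDegenerate C (C.comp (tp C (C.graph r)) (C.graph r'))) {α : C.A S}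
    (hα : α ∈ albKer C S) : C.push r' (C.pull r α) = 0 := by
  have h1 := degenerate_act hS hd.mem hα
  rwa [C.act_comp, act_tp_graph, C.act_graph] at h1

lemma cross' (hd : IsDegenerate C (C.comp (tp C (C.graph r)) (C.graph r'))) {α : C.A T}
    (hα : α ∈ albKer C T) : C.push r (C.pull r' α) = 0 := by
  have h1 := degenerate_act hT (degenerate_tp hd.mem) hα
  rwa [tp_comp C (ch_comm C), tp_tp, C.act_comp, act_tp_graph, C.act_graph] at h1

end cover

variable {U : 𝒱.Obj → Prop}

theorem one_of_self {P : ∀ S : 𝒱.Obj, C.A (S.prod S) → Prop} (hcov : HasCommonCovers C U)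
    (h : BlochSelf H U P) (c : ℚ) (hP : ∀ {S T R : 𝒱.Obj} (r : R ⟶ S) (r' : R ⟶ T)
      (Z : C.A (S.prod T)), S.dim = 2 → T.dim = 2 → R.dim = 2 → C.Deg 2 Z →
      IsDegenerate C (C.comp (tp C (C.graph r)) (C.graph r')) →
      P R (big r r' Z + c • tp C (big r r' Z))) : BlochConj H := by
  intro S T Z hS hT hZ hdeg α hα
  obtain ⟨R, r, r', hR, hU, ⟨N, hN, hr⟩, ⟨N', hN', hr'⟩, hd⟩ := hcov S T hS hT
  have hZ' : Z ∈ C.gr (S.prod T) 2 := hZ
  rw [inAlbKer_iff] at hα
  have hm := big_mem hS hT hR (r := r) (r' := r') hZ'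
  have hb := big_homDeg hS hT hR (r := r) (r' := r') (isHomDegenerate_iff.1 hdeg)
  have h1 := h R (big r r' Z + c • tp C (big r r' Z)) hR hU
    (Submodule.add_mem _ hm (Submodule.smul_mem _ _ (tp_mem C hm)))
    (isHomDegenerate_iff.2 (hb.add (hb.transp.smul c))) (hP r r' Z hS hT hR hZ hd)
    (C.pull r α) (inAlbKer_iff.2 (act_pull hR hS r hα))
  rw [C.act_add, act_smul, act_big, act_tp_big, cross hS hT hR hd hα, C.act_map_zero, map_zero,
    smul_zero, add_zero, cover_push_pull hr, act_map_smul, map_smul] at h1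
  have h2 := congrArg (C.push r') ((smul_eq_zero.1 h1).resolve_left hN)
  rw [cover_push_pull hr', map_zero] at h2
  exact (smul_eq_zero.1 h2).resolve_left hN'

theorem main (hcov : HasCommonCovers C U) (hmap : HasMapPresentations C U) :
    List.TFAE [BlochConj H, BlochSelf H U (IsAntisymmetric C), BlochSelf H U (IsSymmetric C),
      BlochSelf H U (HasDegenerateSquare C), ActAsTransposes H U, ActCentrally H U,
      AutomorphismsFaithful H U, BlochMaps H U] := by
  have hself : ∀ {P : ∀ S : 𝒱.Obj, C.A (S.prod S) → Prop}, BlochConj H → BlochSelf H U P :=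
    fun h S Z hS _ hZ hd _ => h S S Z hS hS hZ hd
  tfae_have 1 → 2 := hself
  tfae_have 1 → 3 := hself
  tfae_have 1 → 4 := hself
  tfae_have 1 → 5 := by
    intro h S Z hS _ hZ hd α hα
    rw [h S S Z hS hS hZ hd α hα, h S S (tp C Z) hS hS (tp_mem C hZ)
      (isHomDegenerate_iff.2 (isHomDegenerate_iff.1 hd).transp) α hα]
  tfae_have 1 → 6 := by
    intro h S Z hS _ hZ hd Y hY α hα
    have h1 := inAlbKer_iff.2 (act_albKer hS hS (Γ := Y) hY (inAlbKer_iff.1 hα))
    rw [h S S Z hS hS hZ hd α hα, h S S Z hS hS hZ hd _ h1, C.act_map_zero]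
  tfae_have 1 → 7 := by
    intro h S Z hS _ hZ hd Y _ _ _
    exact h S S Z hS hS hZ hd
  tfae_have 1 → 8 := by
    intro h R T n f c hR hT _ hd
    exact h R T _ hR hT (mapSum_mem hT f c) hd
  tfae_have 2 → 1 := by
    intro h
    refine one_of_self hcov h (-1) ?_
    intro S T R r r' Z hS hT hR hZ hd
    rw [IsAntisymmetric, tp_add, tp_smul, tp_tp, neg_one_smul, neg_one_smul]
    abel
  tfae_have 3 → 1 := by
    intro h
    refine one_of_self hcov h 1 ?_
    intro S T R r r' Z hS hT hR hZ hd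
    rw [IsSymmetric, tp_add, tp_smul, tp_tp, one_smul, one_smul]
    abel
  tfae_have 4 → 1 := by
    intro h
    refine one_of_self hcov h 0 ?_
    intro S T R r r' Z hS hT hR hZ hd
    have hZ' : Z ∈ C.gr (S.prod T) 2 := hZ
    rw [HasDegenerateSquare, zero_smul, add_zero, isDegenerate_iff]
    have e1 : C.comp (big r r' Z) (big r r' Z) = C.comp (C.graph r) (C.comp Z
        (C.comp (C.comp (tp C (C.graph r')) (C.graph r)) (C.comp Z (tp C (C.graph r'))))) := by
      simp only [big, comp_assoc]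
    rw [e1]
    have h1 : C.comp (tp C (C.graph r')) (C.graph r) ∈ degenerate C T S := by
      have := degenerate_tp hd.mem
      rwa [tp_comp C (ch_comm C), tp_tp] at this
    exact degenerate_comp_left hR hS (degenerate_comp_left hS hT (degenerate_comp_right hS h1
      (comp_mem2 hT hS hZ' (tp_mem C (graph_mem2 hT r')))) hZ') (graph_mem2 hS r)
  tfae_have 5 → 1 := by
    intro h S T Z hS hT hZ hdeg α hα
    obtain ⟨R, r, r', hR, hU, ⟨N, hN, hr⟩, ⟨N', hN', hr'⟩, hd⟩ := hcov S T hS hT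
    have hZ' : Z ∈ C.gr (S.prod T) 2 := hZ
    rw [inAlbKer_iff] at hα
    have h1 := h R (big r r' Z) hR hU (big_mem hS hT hR hZ') (isHomDegenerate_iff.2
      (big_homDeg hS hT hR (isHomDegenerate_iff.1 hdeg))) (C.pull r α)
      (inAlbKer_iff.2 (act_pull hR hS r hα))
    rw [act_big, act_tp_big, cross hS hT hR hd hα, C.act_map_zero, map_zero, cover_push_pull hr,
      act_map_smul, map_smul] at h1
    have h2 := congrArg (C.push r') ((smul_eq_zero.1 h1).resolve_left hN)
    rw [cover_push_pull hr', map_zero] at h2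
    exact (smul_eq_zero.1 h2).resolve_left hN'
  tfae_have 6 → 1 := by
    intro h S T Z hS hT hZ hdeg α hα
    obtain ⟨R, r, r', hR, hU, ⟨N, hN, hr⟩, ⟨N', hN', hr'⟩, hd⟩ := hcov S T hS hT
    have hZ' : Z ∈ C.gr (S.prod T) 2 := hZ
    rw [inAlbKer_iff] at hα
    have h1 := h R (big r r' Z) hR hU
      (big_mem hS hT hR hZ') (isHomDegenerate_iff.2
      (big_homDeg hS hT hR (isHomDegenerate_iff.1 hdeg)))
      (C.comp (C.graph r) (tp C (C.graph r)))
      (comp_mem2 hS hR (graph_mem2 hS r) (tp_mem C (graph_mem2 hS r))) (C.pull r α)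
      (inAlbKer_iff.2 (act_pull hR hS r hα))
    have h2 : C.act Z (C.push r (C.pull r α)) ∈ albKer C T :=
      act_albKer hS hT hZ' (act_push hR hS r (act_pull hR hS r hα))
    rw [C.act_comp, C.act_comp, C.act_graph, act_tp_graph, C.act_graph, act_tp_graph, act_big,
      act_big, cross' hS hT hR hd h2, map_zero, cover_push_pull hr, act_map_smul,
      cover_push_pull hr, act_map_smul, smul_smul, map_smul] at h1
    have h3 := congrArg (C.push r') ((smul_eq_zero.1 h1).resolve_left (mul_ne_zero hN hN))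
    rw [cover_push_pull hr', map_zero] at h3
    exact (smul_eq_zero.1 h3).resolve_left hN'
  tfae_have 7 → 4 := by
    intro h S Z hS hU hZ hd hsq
    refine h S Z hS hU hZ hd (dg C S - Z) (Submodule.sub_mem _ (dg_mem2 hS) hZ) ?_ ?_
    · have e1 : C.comp (dg C S + Z) (dg C S - Z) - dg C S = (-1 : ℚ) • C.comp Z Z := by
        rw [comp_sub, add_comp, add_comp, comp_dg, dg_comp, comp_dg, neg_one_smul]
        abel
      rw [e1]
      exact isDegenerate_smul hsq _
    · have e1 : C.comp (dg C S - Z) (dg C S + Z) - dg C S = (-1 : ℚ) • C.comp Z Z := by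
        rw [comp_add, sub_comp, sub_comp, comp_dg, dg_comp, comp_dg, neg_one_smul]
        abel
      rw [e1]
      exact isDegenerate_smul hsq _
  tfae_have 8 → 1 := by
    intro h S T Z hS hT hZ hdeg α hα
    obtain ⟨R, ρ, n, f, c, hR, hU, ⟨N, hN, hρ⟩, hd⟩ := hmap S T Z hS hT hZ
    have hZ' : Z ∈ C.gr (S.prod T) 2 := hZ
    rw [inAlbKer_iff] at hα
    have h1 : HomDeg H (mapSum C f c) := by
      have h2 := (isHomDegenerate_iff.1 hdeg).comp_left hR hS (graph_mem2 hS ρ)
      have h3 := h2.add ((HomDeg.of_mem (isDegenerate_iff.1 hd)).smul (-1))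
      rwa [neg_one_smul, neg_sub, add_sub_cancel] at h3
    have h2 := h R T n f c hR hT hU (isHomDegenerate_iff.2 h1) (C.pull ρ α)
      (inAlbKer_iff.2 (act_pull hR hS ρ hα))
    have h3 := degenerate_act hR hd.mem (act_pull hR hS ρ hα)
    rw [C.act_sub, h2, sub_zero, C.act_comp, C.act_graph, cover_push_pull hρ, act_map_smul] at h3
    exact (smul_eq_zero.1 h3).resolve_left hN
  tfae_finish

end Pool.Agent.Y152.EQ
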